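import Pool.Agent.Helper60.TruthTreeDefs
import Pool.Agent.Helper60.TruthTreeProof

/-!
Definitions are in `Pool.Agent.Helper60.TruthTreeDefs`, the proof is in
`Pool.Agent.Helper60.TruthTreeProof`.
-/

namespace Pool.Agent.Results.MP_d84959_lc.LetterSharing

open Pool.Agent.Helper60.TruthTree

/-- Letter-sharing: if an implication is acceptable then its antecedent and its consequent have a
sentence letter in common. -/
theorem result : ∀ φ ψ : Fml, Acceptable (φ.imp ψ) → (φ.letters ∩ ψ.letters).Nonempty :=
  fun φ ψ h => letter_sharing φ ψ h

end Pool.Agent.Results.MP_d84959_lc.LetterSharing
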